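import Pool.Agent.Helper56.HS.Stm
import Pool.Agent.Helper82.NL.PI

/-! Project HS, package FREE: two free sequences. -/

set_option autoImplicit false

namespace Pool.Agent.Helper31.HS

open Pool.Agent.Helper35.EM Pool.Agent.Helper56.HS Set ComplexConjugate

theorem free_indep {t : ℕ → ℂ} (ht : Free t) (n : ℕ) : M.Indep (t '' Iio n) := by
  induction n with
  | zero =>
    have e : t '' Iio 0 = ∅ := by simp
    rw [e]
    exact M.empty_indep
  | succ n ih =>
    have e : (Iio (n + 1) : Set ℕ) = insert n (Iio n) := by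
      ext k
      simp only [mem_Iio, mem_insert_iff]
      omega
    rw [e, image_insert_eq]
    exact ((ih.notMem_closure_iff (by trivial)).1 (ht n)).1

theorem free_inj {t : ℕ → ℂ} (ht : Free t) : Function.Injective t := by
  have h : ∀ m n, m < n → t m ≠ t n := by
    intro m n hmn h
    apply ht n
    rw [← h]
    exact M.subset_closure _ (fun _ _ => trivial) ⟨m, hmn, rfl⟩
  intro m n hmn
  by_contra hne
  rcases lt_or_gt_of_ne hne with h1 | h1
  · exact h m n h1 hmn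
  · exact h n m h1 hmn.symm

theorem free_all {t : ℕ → ℂ} (ht : Free t) {n : ℕ} {A : Set ℕ} (hn : n ∉ A) :
    t n ∉ M.closure (t '' A) := by
  intro h
  obtain ⟨I, hI, hfin, -, hmem⟩ := Matroid.exists_mem_finite_closure_of_mem_closure h
  obtain ⟨N, hN⟩ : ∃ N : ℕ, I ⊆ t '' (A ∩ Iio N) := by
    have h1 : ∀ x ∈ I, ∃ k ∈ A, t k = x := fun x hx => hI hx
    choose! f hf1 hf2 using h1
    obtain ⟨N, hN⟩ := (hfin.image f).bddAbove
    refine ⟨N + 1, fun x hx => ⟨f x, ⟨hf1 x hx, ?_⟩, hf2 x hx⟩⟩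
    exact Nat.lt_succ_of_le (hN (mem_image_of_mem f hx))
  have h2 := free_indep ht (max N (n + 1))
  have hmemn : t n ∈ t '' Iio (max N (n + 1)) := ⟨n, mem_Iio.2 (lt_of_lt_of_le (Nat.lt_succ_self n) (le_max_right _ _)), rfl⟩
  apply h2.notMem_closure_sdiff_of_mem hmemn
  refine M.closure_subset_closure (hN.trans ?_) hmem
  rintro _ ⟨k, ⟨hk, hkN⟩, rfl⟩
  have hkN' : k < N := hkN
  refine ⟨⟨k, mem_Iio.2 (lt_of_lt_of_le hkN' (le_max_left _ _)), rfl⟩, ?_⟩
  intro hk2
  have := free_inj ht (mem_singleton_iff.1 hk2)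
  exact hn (this ▸ hk)

theorem free : S_FREE := by
  obtain ⟨u, hu, h0, -⟩ := Pool.Agent.Helper82.NL.exists_freeR_pi 1 one_pos
  refine ⟨fun k => u (2 * k + 1), fun k => u (2 * k), ⟨?_, ?_⟩, ⟨?_, ?_, ?_, ?_⟩, h0⟩
  · intro n h
    apply hu.free (2 * n + 1)
    refine M.closure_subset_closure ?_ h
    rintro _ ⟨k, hk, rfl⟩
    refine ⟨2 * k + 1, ?_, rfl⟩
    simp only [mem_Iio] at hk ⊢
    omega
  · intro n
    exact hu.pos (2 * n + 1)
  · intro n h
    apply free_all hu.free (n := 2 * n) (A := {m | m ≠ 2 * n}) (by simp)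
    refine M.closure_subset_closure ?_ h
    rintro _ (⟨k, rfl⟩ | ⟨k, hk, rfl⟩)
    · exact ⟨2 * k + 1, by simp only [mem_ofPred_eq]; omega, rfl⟩
    · refine ⟨2 * k, ?_, rfl⟩
      simp only [mem_Iio, mem_ofPred_eq] at hk ⊢
      omega
  · intro n
    exact hu.pos (2 * n)
  · rintro _ ⟨k, rfl⟩
    exact (hu.pos (2 * k + 1)).conj
  · exact countable_range _

end Pool.Agent.Helper31.HS
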